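import Pool.Agent.W798.SP.Stm

/-!
# Sum-product: basic facts on conditional entropies
-/

set_option autoImplicit false
set_option linter.unusedSectionVars false

open Finset
open scoped Classical

namespace Pool.Agent.W798.SP

open Pool.Agent.W904.AK

variable {Ω Ω' γ γ' α α' β δ : Type} [Fintype Ω] [Fintype Ω'] {p : Ω → ℝ}

/-- Determination through an explicit function, on the support. -/
lemma Det.mk' {f : Ω → α} {g : Ω → β} (φ : α → β) (h : ∀ ω, p ω ≠ 0 → g ω = φ (f ω)) :
    Det p f g := fun x y hx hy hf => by rw [h x hx, h y hy, hf]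

lemma CH_mono (hp : IsLaw p) {Q : Ω → γ} {f : Ω → α} {g : Ω → β}
    (h : Det p (fun ω => (Q ω, f ω)) g) : CH p Q g ≤ CH p Q f := by
  unfold CH
  have := H_mono hp (Det.pair (Det.fst p Q f) h)
  linarith

/-- Same condition, equivalent variables. -/
lemma CH_eq (hp : IsLaw p) {Q : Ω → γ} {f : Ω → α} {g : Ω → β}
    (h : Det p (fun ω => (Q ω, f ω)) g) (h' : Det p (fun ω => (Q ω, g ω)) f) :
    CH p Q f = CH p Q g := le_antisymm (CH_mono hp h') (CH_mono hp h)

/-- Equivalent conditions and equivalent variables. -/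
lemma CH_congr (hp : IsLaw p) {Q : Ω → γ} {Q' : Ω → γ'} {f : Ω → α} {g : Ω → β}
    (hQ : Det p Q Q') (hQ' : Det p Q' Q) (h : Det p (fun ω => (Q ω, f ω)) g)
    (h' : Det p (fun ω => (Q' ω, g ω)) f) : CH p Q f = CH p Q' g := by
  unfold CH
  rw [H_congr hp hQ hQ', H_congr hp (Det.pair ((Det.fst p Q f).trans hQ) h)
    (Det.pair ((Det.fst p Q' g).trans hQ') h')]

lemma CH_nonneg (hp : IsLaw p) (Q : Ω → γ) (f : Ω → α) : 0 ≤ CH p Q f := by
  unfold CH
  have := H_mono hp (Det.fst p Q f)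
  linarith

/-- Chain rule. -/
lemma CH_chain (hp : IsLaw p) (Q : Ω → γ) (f : Ω → α) (g : Ω → β) :
    CH p Q (fun ω => (f ω, g ω)) = CH p Q f + CH p (fun ω => (Q ω, f ω)) g := by
  unfold CH
  have : H p (fun ω => (Q ω, (f ω, g ω))) = H p (fun ω => ((Q ω, f ω), g ω)) :=
    H_congr hp (Det.mk' (fun t => ((t.1, t.2.1), t.2.2)) fun ω _ => rfl)
      (Det.mk' (fun t => (t.1.1, (t.1.2, t.2))) fun ω _ => rfl)
  rw [this]
  ring

/-- Conditional submodularity. -/
lemma CH_submod (hp : IsLaw p) {Q : Ω → γ} {f : Ω → α} {g : Ω → β} {h : Ω → α'} {k : Ω → δ}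
    (hf : Det p (fun ω => (Q ω, f ω)) h) (hg : Det p (fun ω => (Q ω, g ω)) h)
    (hk : Det p (fun ω => (Q ω, (f ω, g ω))) k) :
    CH p Q k + CH p Q h ≤ CH p Q f + CH p Q g := by
  have := submod' hp (f := fun ω => (Q ω, f ω)) (g := fun ω => (Q ω, g ω))
    (h := fun ω => (Q ω, h ω)) (k := fun ω => (Q ω, k ω))
    (Det.pair (Det.fst p Q f) hf) (Det.pair (Det.fst p Q g) hg)
    (Det.pair (Det.mk' (fun t => t.1.1) fun ω _ => rfl)
      ((Det.mk' (fun t => (t.1.1, (t.1.2, t.2.2))) fun ω _ => rfl : Det p _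
        (fun ω => (Q ω, (f ω, g ω)))).trans hk))
  unfold CH
  linarith

lemma CH_subadd (hp : IsLaw p) {Q : Ω → γ} {f : Ω → α} {g : Ω → β} {k : Ω → δ}
    (hk : Det p (fun ω => (Q ω, (f ω, g ω))) k) : CH p Q k ≤ CH p Q f + CH p Q g := by
  have h1 := CH_submod hp (h := fun _ : Ω => ()) (fun _ _ _ _ _ => rfl)
    (fun _ _ _ _ _ => rfl) hk
  have h2 := CH_nonneg hp Q (fun _ : Ω => ())
  linarith

/-- Conditioning on more reduces the entropy. -/
lemma CH_anti (hp : IsLaw p) {Q : Ω → γ} {Q' : Ω → γ'} {f : Ω → α} (h : Det p Q' Q) :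
    CH p Q' f ≤ CH p Q f := by
  have := submod' hp (f := Q') (g := fun ω => (Q ω, f ω)) (h := Q)
    (k := fun ω => (Q' ω, f ω)) h (Det.fst p Q f)
    (Det.mk' (fun t => (t.1, t.2.2)) fun ω _ => rfl)
  unfold CH
  linarith

/-- Conditional entropy is an average of entropies of the conditional laws. -/
lemma CH_eq_sum (hp : IsLaw p) (Q : Ω → γ) (f : Ω → α) :
    CH p Q f = ∑ x, p x * H (cd p Q (Q x)) f := chain hp Q f

/-- Equal image laws have the same supports. -/
lemma supp_of_im {q : Ω' → ℝ} (hp : IsLaw p) {f : Ω → α} {g : Ω' → α}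
    (h : ∀ a, im p f a = im q g a) {ω : Ω} (hω : p ω ≠ 0) : ∃ ω', q ω' ≠ 0 ∧ g ω' = f ω := by
  have h1 : 0 < im q g (f ω) := by rw [← h]; exact im_pos hp f hω
  rw [im_eq_sum] at h1
  obtain ⟨x, -, hx⟩ := Finset.exists_ne_zero_of_sum_ne_zero h1.ne'
  by_cases h2 : g x = f ω
  · rw [if_pos h2] at hx
    exact ⟨x, hx, h2⟩
  · rw [if_neg h2] at hx
    exact absurd rfl hx

/-- Image laws of functions of a pair of variables with the same law. -/
lemma im_map_eq {q : Ω' → ℝ} {f : Ω → α} {g : Ω' → α} (h : ∀ a, im p f a = im q g a)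
    (φ : α → β) (b : β) : im p (fun ω => φ (f ω)) b = im q (fun ω => φ (g ω)) b := by
  have key : ∀ {Ω₁ : Type} [Fintype Ω₁] (r : Ω₁ → ℝ) (k : Ω₁ → α) (s : Finset α),
      (∀ x, r x ≠ 0 → k x ∈ s) →
      im r (fun ω => φ (k ω)) b = ∑ a ∈ s, if φ a = b then im r k a else 0 := by
    intro Ω₁ _ r k s hs
    rw [im_eq_sum]
    have : ∀ a ∈ s, (if φ a = b then im r k a else 0) =
        ∑ x, if k x = a then (if φ (k x) = b then r x else 0) else 0 := by
      intro a _
      rw [im_eq_sum]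
      by_cases h1 : φ a = b
      · rw [if_pos h1]
        refine Finset.sum_congr rfl fun x _ => ?_
        by_cases h2 : k x = a
        · rw [if_pos h2, if_pos h2, h2, if_pos h1]
        · rw [if_neg h2, if_neg h2]
      · rw [if_neg h1]
        symm
        refine Finset.sum_eq_zero fun x _ => ?_
        by_cases h2 : k x = a
        · rw [if_pos h2, h2, if_neg h1]
        · rw [if_neg h2]
    rw [Finset.sum_congr rfl this, Finset.sum_comm]
    refine Finset.sum_congr rfl fun x _ => ?_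
    rw [Finset.sum_ite_eq]
    by_cases hx : r x = 0
    · simp [hx]
    · rw [if_pos (hs x hx)]
  rw [key p f (Finset.univ.image f ∪ Finset.univ.image g) fun x _ =>
      Finset.mem_union_left _ (Finset.mem_image_of_mem f (Finset.mem_univ x)),
    key q g (Finset.univ.image f ∪ Finset.univ.image g) fun x _ =>
      Finset.mem_union_right _ (Finset.mem_image_of_mem g (Finset.mem_univ x))]
  refine Finset.sum_congr rfl fun a _ => ?_
  rw [h a]

/-- Entropies of functions of variables with the same law. -/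
lemma H_of_im {q : Ω' → ℝ} {f : Ω → α} {g : Ω' → α} (h : ∀ a, im p f a = im q g a)
    (φ : α → β) : H p (fun ω => φ (f ω)) = H q (fun ω => φ (g ω)) :=
  H_eq_of_im_eq (im_map_eq h φ)

/-- Conditional entropies of pairs with the same law. -/
lemma CH_of_im {q : Ω' → ℝ} {Q : Ω → γ} {f : Ω → α} {Q' : Ω' → γ} {f' : Ω' → α}
    (h : ∀ a, im p (fun ω => (Q ω, f ω)) a = im q (fun ω => (Q' ω, f' ω)) a) :
    CH p Q f = CH q Q' f' := by
  unfold CH
  rw [H_eq_of_im_eq h]
  have := H_of_im h Prod.fst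
  dsimp only at this
  rw [this]

/-- Conditional entropies of functions of pairs with the same law. -/
lemma CH_of_im' {q : Ω' → ℝ} {Q : Ω → γ} {f : Ω → α} {Q' : Ω' → γ} {f' : Ω' → α}
    (h : ∀ a, im p (fun ω => (Q ω, f ω)) a = im q (fun ω => (Q' ω, f' ω)) a)
    (φ : γ × α → β) : CH p Q (fun ω => φ (Q ω, f ω)) = CH q Q' (fun ω => φ (Q' ω, f' ω)) :=
  CH_of_im (im_map_eq h (fun t => (t.1, φ t)))

/-- The uniform law on a nonempty finite type. -/
noncomputable def unif (Ω : Type) [Fintype Ω] : Ω → ℝ := fun _ => 1 / (Fintype.card Ω : ℝ)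

lemma unif_law (Ω : Type) [Fintype Ω] [Nonempty Ω] : IsLaw (unif Ω) := by
  constructor
  · intro x
    unfold unif
    positivity
  · unfold unif
    rw [Finset.sum_const, Finset.card_univ, nsmul_eq_mul]
    have : (Fintype.card Ω : ℝ) ≠ 0 := by
      have := Fintype.card_pos (α := Ω)
      positivity
    field_simp

/-- Products of laws: the gluing over a point. -/
lemma prod_law {q : Ω' → ℝ} (hp : IsLaw p) (hq : IsLaw q) :
    (∀ c : Unit, im p (fun _ => ()) c = im q (fun _ => ()) c) := by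
  intro c
  rw [im_eq_sum, im_eq_sum]
  simp [hp.total, hq.total]

end Pool.Agent.W798.SP
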