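import Pool.Agent.W904.AK.Glue

/-!
# Sum-product over the reals with exponent 135/101: definitions and statements of the parts
-/

set_option autoImplicit false
set_option linter.unusedSectionVars false

open Finset
open scoped Classical Pointwise

namespace Pool.Agent.W798.SP

open Pool.Agent.W904.AK

/-- Conditional entropy of `f` given `Q`. -/
noncomputable def CH {Ω : Type} [Fintype Ω] {γ α : Type} (p : Ω → ℝ) (Q : Ω → γ) (f : Ω → α) : ℝ :=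
  H p (fun ω => (Q ω, f ω)) - H p Q

/-- The error constant of the Szemeredi-Trotter inequality. -/
noncomputable def Cst (n : ℕ) : ℝ := Real.log (4097 * ((Nat.log 2 n : ℝ) + 1))

/-- The part `A_l = {x in A : l x in A}` of `A`. -/
noncomputable def fib (A : Finset ℝ) (l : ℝ) : Finset ℝ := A.filter (fun x => l * x ∈ A)

/-- The multiplicative energy, as the sum of the squares of the numbers of representations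
of the ratios. -/
noncomputable def en (A : Finset ℝ) : ℕ := ∑ l ∈ A / A, (fib A l).card ^ 2

/-- A family of functions as one vector valued function. -/
def zz {Ω : Type} {k : ℕ} (u : Fin k → Ω → ℝ) (ω : Ω) : Fin k → ℝ := fun i => u i ω

/-- Three real functions which satisfy one linear relation with nonzero coefficients depending on
`Lam`, and which lie in sets with at most `n` elements depending on `Lam`. -/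
structure Tri {Ω Γ : Type} [Fintype Ω] (p : Ω → ℝ) (Lam : Ω → Γ) (u : Fin 3 → Ω → ℝ) (n : ℕ) :
    Prop where
  law : IsLaw p
  rel : ∃ (c : Fin 3 → Γ → ℝ) (S : Fin 3 → Γ → Finset ℝ), (∀ i g, (S i g).card ≤ n) ∧
    ∀ ω, p ω ≠ 0 → (∀ i, c i (Lam ω) ≠ 0 ∧ u i ω ≠ 0 ∧ u i ω ∈ S i (Lam ω)) ∧
      ∑ i, c i (Lam ω) * u i ω = 0

/-- The basic random configuration: slopes `l 0, l 1, l 2, l 3` and `u i` in `A_(l i)`. -/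
structure Base {Ω : Type} [Fintype Ω] (A : Finset ℝ) (p : Ω → ℝ) (l : Fin 4 → Ω → ℝ)
    (u : Fin 3 → Ω → ℝ) (n : ℕ) : Prop where
  law : IsLaw p
  lpos : ∀ ω, p ω ≠ 0 → ∀ i, 0 < l i ω
  mem : ∀ ω, p ω ≠ 0 → ∀ i : Fin 3, u i ω ∈ fib A (l i.castSucc ω)
  ne : ∀ ω, p ω ≠ 0 → ∀ i : Fin 3, l i.castSucc ω ≠ l 3 ω
  rel : ∀ ω, p ω ≠ 0 →
    (l 0 ω - l 3 ω) * u 0 ω + (l 1 ω - l 3 ω) * u 1 ω = (l 2 ω - l 3 ω) * u 2 ω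
  card : ∀ ω, p ω ≠ 0 → ∀ i : Fin 3, (fib A (l i.castSucc ω)).card ≤ n

/-- The extension by a multiplier `m` for the forms `u i` and `u 2`. -/
def Ext {Ω₀ : Type} [Fintype Ω₀] (A : Finset ℝ) (p₀ : Ω₀ → ℝ) (l : Fin 4 → Ω₀ → ℝ)
    (u : Fin 3 → Ω₀ → ℝ) (i : Fin 3) (D : ℝ) : Prop :=
  ∃ (Ω : Type) (_ : Fintype Ω) (p : Ω → ℝ) (L : Ω → Fin 4 → ℝ) (v : Fin 3 → Ω → ℝ)
    (x y m : Ω → ℝ), IsLaw p ∧
    (∀ a, im p (fun ω => (L ω, zz v ω)) a = im p₀ (fun ω => (zz l ω, zz u ω)) a) ∧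
    (∀ ω, p ω ≠ 0 → x ω ≠ 0 ∧ y ω ≠ 0 ∧ m ω ≠ 0 ∧ v i ω * m ω * x ω ∈ A * A ∧
      v 2 ω * m ω * y ω ∈ A * A) ∧
    CH p L (fun ω => (zz v ω, (x ω, y ω))) = CH p L (zz v) + CH p L (fun ω => (x ω, y ω)) ∧
    D ≤ CH p (fun ω => ((L ω, zz v ω), (x ω, y ω))) m

/-! ### Szemeredi-Trotter for Cartesian products -/

/-- ST1: rich lines. -/
def S_ST1 : Prop := ∀ (X Y : Finset ℝ) (L : Finset (ℝ × ℝ)) (k : ℕ), 2 ≤ k →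
  (∀ l ∈ L, l.1 ≠ 0 ∧ k ≤ (X.filter (fun x => l.1 * x + l.2 ∈ Y)).card) →
  L.card * k ^ 3 ≤ 512 * X.card ^ 2 * Y.card ^ 2

/-- ST2: third moment. -/
def S_ST2 : Prop := ∀ (X Y : Finset ℝ) (L : Finset (ℝ × ℝ)) (n m : ℕ), X.card ≤ n → Y.card ≤ m →
  (∀ l ∈ L, l.1 ≠ 0) → L.card ≤ (n * m) ^ 2 →
  ∑ l ∈ L, (X.filter (fun x => l.1 * x + l.2 ∈ Y)).card ^ 3 ≤
    4097 * (Nat.log 2 n + 1) * (n * m) ^ 2

/-- GC: the conditional Gibbs inequality. -/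
def S_GC : Prop := ∀ {Ω γ α β : Type} [Fintype Ω] (p : Ω → ℝ) (Q : Ω → γ) (f : Ω → α) (g : Ω → β)
  (F : γ → Finset α) (G : γ → α → Finset β) (d : ℕ) (B : ℝ), IsLaw p →
  (∀ ω, p ω ≠ 0 → f ω ∈ F (Q ω) ∧ g ω ∈ G (Q ω) (f ω)) →
  (∀ ω, p ω ≠ 0 → ∑ a ∈ F (Q ω), ((G (Q ω) a).card : ℝ) ^ d ≤ B) →
  d * CH p Q (fun ω => (f ω, g ω)) - (d - 1) * CH p Q f ≤ Real.log B

/-- STC: the conditional entropic Szemeredi-Trotter inequality. -/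
def S_STC : Prop := ∀ {Ω γ : Type} [Fintype Ω] (p : Ω → ℝ) (Q : Ω → γ) (x y a b : Ω → ℝ)
  (n m : ℕ) (X Y : γ → Finset ℝ) (L : γ → Finset (ℝ × ℝ)), IsLaw p →
  (∀ q, (X q).card ≤ n) → (∀ q, (Y q).card ≤ m) → (∀ q, (L q).card ≤ (n * m) ^ 2) →
  (∀ ω, p ω ≠ 0 → x ω ∈ X (Q ω) ∧ y ω ∈ Y (Q ω) ∧ a ω ≠ 0 ∧ y ω = a ω * x ω + b ω ∧
    (a ω, b ω) ∈ L (Q ω)) →
  3 * CH p Q (fun ω => ((a ω, b ω), (x ω, y ω))) ≤
    2 * CH p Q (fun ω => (a ω, b ω)) + 2 * Real.log (n * m) + Cst n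

/-! ### Energy -/

/-- EN: Solymosi's energy bound. -/
def S_EN : Prop := ∀ A : Finset ℝ, (∀ x ∈ A, 0 < x) →
  en A ≤ 8 * (A + A).card ^ 2 * (Nat.log 2 A.card + 1)

/-- SR: pairs of elements of `A` have a rich ratio. -/
def S_SR : Prop := ∀ (A : Finset ℝ) {Ω γ : Type} [Fintype Ω] (p : Ω → ℝ) (Q : Ω → γ)
  (x X : Ω → ℝ), (∀ a ∈ A, 0 < a) → IsLaw p → (∀ ω, p ω ≠ 0 → x ω ∈ A ∧ X ω ∈ A) →
  2 * CH p Q (fun ω => (x ω, X ω)) ≤ CH p Q (fun ω => X ω / x ω) + Real.log (en A)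

/-- CS: the Cauchy-Schwarz bounds for the energy. -/
def S_CS : Prop := ∀ A : Finset ℝ, (∀ x ∈ A, 0 < x) →
  A.card ^ 4 ≤ (A * A).card * en A ∧ ∑ l ∈ A / A, (fib A l).card = A.card ^ 2

/-- DY: a dyadic class of slopes. -/
def S_DY : Prop := ∀ A : Finset ℝ, A.Nonempty → (∀ x ∈ A, 0 < x) →
  ∃ (T : ℕ) (S : Finset ℝ), 1 ≤ T ∧ T ≤ A.card ∧
    (∀ l ∈ S, 0 < l ∧ T ≤ (fib A l).card ∧ (fib A l).card < 2 * T) ∧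
    A.card ^ 4 ≤ 4 * (A * A).card * (Nat.log 2 A.card + 1) * (S.card * T ^ 2) ∧
    S.card * T ≤ A.card ^ 2

/-! ### Clusters of slopes -/

/-- CC: clusters of consecutive elements. -/
def S_CC : Prop := ∀ (S : Finset ℝ) (M : ℕ), 2 ≤ M → M ≤ S.card → ∃ c : ℝ → ℕ,
  (∀ a ∈ S, ∀ b ∈ S, a ≤ b → c a ≤ c b) ∧ (∀ j, (S.filter (fun a => c a = j)).card ≤ M) ∧
  S.card * M ≤ 8 * ((S ×ˢ S).filter (fun q => q.1 < q.2 ∧ c q.1 = c q.2)).card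

/-- C0: the combinatorial configuration set. -/
def S_C0 : Prop := ∀ (A S : Finset ℝ) (T M : ℕ), (∀ x ∈ A, 0 < x) → 1 ≤ T → 2 ≤ M → M ≤ S.card →
  (∀ l ∈ S, 0 < l ∧ T ≤ (fib A l).card ∧ (fib A l).card < 2 * T) →
  16 * (A + A).card ^ 2 ≤ M * S.card * T ^ 2 →
  ∃ W : Finset ((Fin 4 → ℝ) × (Fin 3 → ℝ)),
    (∀ w ∈ W, (∀ i, w.1 i ∈ S) ∧ (∀ i : Fin 3, w.2 i ∈ fib A (w.1 i.castSucc)) ∧
      (∀ i : Fin 3, w.1 i.castSucc ≠ w.1 3) ∧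
      (w.1 0 - w.1 3) * w.2 0 + (w.1 1 - w.1 3) * w.2 1 = (w.1 2 - w.1 3) * w.2 2) ∧
    M * S.card * T ^ 2 ≤ 16 * W.card ∧
    (W.image Prod.fst).card ≤ S.card * M ^ 3 ∧
    (∀ a, (W.filter (fun w => w.1 0 = a)).card ≤ 4 * T ^ 2 * M) ∧
    (∀ a, (W.filter (fun w => w.1 1 = a)).card ≤ 4 * T ^ 2 * M)

/-- CL: the basic law. -/
def S_CL : Prop := ∀ (A S : Finset ℝ) (T M : ℕ), (∀ x ∈ A, 0 < x) → 1 ≤ T → 2 ≤ M → M ≤ S.card →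
  (∀ l ∈ S, 0 < l ∧ T ≤ (fib A l).card ∧ (fib A l).card < 2 * T) →
  16 * (A + A).card ^ 2 ≤ M * S.card * T ^ 2 →
  ∃ (Ω : Type) (_ : Fintype Ω) (p : Ω → ℝ) (l : Fin 4 → Ω → ℝ) (u : Fin 3 → Ω → ℝ),
    Base A p l u (2 * T) ∧ Real.log (S.card / 64) ≤ H p (l 0) ∧
    Real.log (S.card / 64) ≤ H p (l 1) ∧
    Real.log ((T : ℝ) ^ 2 / (16 * (M : ℝ) ^ 2)) ≤ CH p (zz l) (zz u)

/-! ### The inequalities of the method -/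

/-- TR: a base law is a triple law. -/
def S_TR : Prop := ∀ {Ω : Type} [Fintype Ω] (A : Finset ℝ) (p : Ω → ℝ) (l : Fin 4 → Ω → ℝ)
  (u : Fin 3 → Ω → ℝ) (n : ℕ), (∀ x ∈ A, 0 < x) → Base A p l u n → Tri p (zz l) u n

/-- J0. -/
def S_J0 : Prop := ∀ {Ω γ : Type} [Fintype Ω] (p : Ω → ℝ) (Q : Ω → γ) (a b : Fin 3 → Ω → ℝ)
  (n : ℕ) (S S' : Fin 3 → γ → Finset ℝ), IsLaw p → (∀ i g, (S i g).card ≤ n) →
  (∀ i g, (S' i g).card ≤ n) →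
  (∀ ω, p ω ≠ 0 → (∀ i, a i ω ≠ 0 ∧ b i ω ≠ 0 ∧ a i ω ∈ S i (Q ω) ∧ b i ω ∈ S' i (Q ω)) ∧
    ∑ i, a i ω = 0 ∧ ∑ i, b i ω = 0) →
  2 * CH p Q (fun ω => (zz a ω, zz b ω)) ≤
    CH p Q (fun ω => b 0 ω / a 0 ω) + 6 * Real.log n + Cst n

/-- J. -/
def S_J : Prop := ∀ {Ω₀ Γ : Type} [Fintype Ω₀] (p₀ : Ω₀ → ℝ) (Lam₀ : Ω₀ → Γ) (u : Fin 3 → Ω₀ → ℝ)
  (n : ℕ), Tri p₀ Lam₀ u n → ∀ (i j : Fin 3) {Ω γ : Type} [Fintype Ω] (p : Ω → ℝ) (Lam : Ω → Γ)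
  (f g : Ω → ℝ) (Q : Ω → γ), IsLaw p →
  (∀ a, im p (fun ω => (Lam ω, f ω)) a = im p₀ (fun ω => (Lam₀ ω, u i ω)) a) →
  (∀ a, im p (fun ω => (Lam ω, g ω)) a = im p₀ (fun ω => (Lam₀ ω, u j ω)) a) →
  2 * CH p (fun ω => (Q ω, Lam ω)) (fun ω => (f ω, g ω)) ≤
    CH p (fun ω => (Q ω, Lam ω)) (fun ω => g ω / f ω) + 6 * Real.log n +
      2 * (CH p₀ Lam₀ (u i) + CH p₀ Lam₀ (u j)) - 4 * CH p₀ Lam₀ (zz u) + Cst n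

/-- HN: each form has entropy at most `log n`. -/
def S_HN : Prop := ∀ {Ω Γ : Type} [Fintype Ω] (p : Ω → ℝ) (Lam : Ω → Γ) (u : Fin 3 → Ω → ℝ)
  (n : ℕ), Tri p Lam u n → ∀ i, CH p Lam (u i) ≤ Real.log n

/-- RB: the entropy of the two products. -/
def S_RB : Prop := ∀ {Ω Γ : Type} [Fintype Ω] (A : Finset ℝ) (p : Ω → ℝ) (Lam : Ω → Γ)
  (u : Fin 3 → Ω → ℝ) (n : ℕ) (x y : Ω → ℝ) (i k : Fin 3), (∀ a ∈ A, 0 < a) → Tri p Lam u n →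
  i ≠ k → (∀ ω, p ω ≠ 0 → x ω ∈ A ∧ y ω ≠ 0) →
  (∀ a, im p (fun ω => (Lam ω, y ω)) a = im p (fun ω => (Lam ω, u i ω)) a) →
  CH p Lam (fun ω => (zz u ω, (x ω, y ω))) =
    CH p Lam (zz u) + (Real.log A.card + CH p Lam (u i)) →
  7 * CH p Lam (zz u) + 2 * Real.log A.card - 11 * Real.log n - 1 / 2 * Real.log (en A) -
    3 / 2 * Cst n ≤ CH p Lam (fun ω => (u i ω * x ω, u k ω * y ω))

/-- EX: the extensions exist. -/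
def S_EX : Prop := ∀ {Ω : Type} [Fintype Ω] (A : Finset ℝ) (p : Ω → ℝ) (l : Fin 4 → Ω → ℝ)
  (u : Fin 3 → Ω → ℝ) (n : ℕ) (i : Fin 3), A.Nonempty → (∀ a ∈ A, 0 < a) → Base A p l u n →
  i ≠ 2 → Ext A p l u i (H p (l i.castSucc) + (7 * CH p (zz l) (zz u) + 2 * Real.log A.card -
    11 * Real.log n - 1 / 2 * Real.log (en A) - 3 / 2 * Cst n) - 2 * Real.log (A * A).card)

/-- FI: the final row. -/
def S_FI : Prop := ∀ {Ω : Type} [Fintype Ω] (A : Finset ℝ) (p : Ω → ℝ) (l : Fin 4 → Ω → ℝ)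
  (u : Fin 3 → Ω → ℝ) (n : ℕ) (D₀ D₁ : ℝ), (∀ a ∈ A, 0 < a) → Base A p l u n →
  Ext A p l u 0 D₀ → Ext A p l u 1 D₁ →
  3 * (CH p (zz l) (fun ω => u 0 ω / u 2 ω) + D₀ + D₁) ≤
    8 * Real.log (A * A).card + Cst (A * A).card

/-! ### Assembly and numbers -/

/-- AS: the inequality before optimisation. -/
def S_AS : Prop := ∀ (A S : Finset ℝ) (T M : ℕ), A.Nonempty → (∀ x ∈ A, 0 < x) → 1 ≤ T → 2 ≤ M →
  M ≤ S.card → (∀ l ∈ S, 0 < l ∧ T ≤ (fib A l).card ∧ (fib A l).card < 2 * T) →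
  16 * (A + A).card ^ 2 ≤ M * S.card * T ^ 2 →
  60 * Real.log ((T : ℝ) ^ 2 / (16 * (M : ℝ) ^ 2)) - 96 * Real.log ((2 * T : ℕ) : ℝ) +
    6 * Real.log (S.card / 64) + 12 * Real.log A.card - 3 * Real.log (en A) - 12 * Cst (2 * T) ≤
    20 * Real.log (A * A).card + Cst (A * A).card

/-- PO: the result for sets of positive reals. -/
def S_PO : Prop := ∀ δ : ℝ, 0 < δ → ∃ c : ℝ, 0 < c ∧ ∀ A : Finset ℝ, A.Nonempty →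
  (∀ x ∈ A, 0 < x) → c * (A.card : ℝ) ^ (270 - δ) ≤
    ((A + A).card : ℝ) ^ 123 * ((A * A).card : ℝ) ^ 79

/-- RE: the result for finite sets of reals. -/
def S_RE : Prop := ∀ δ : ℝ, 0 < δ → ∃ c : ℝ, 0 < c ∧ ∀ A : Finset ℝ, A.Nonempty →
  c * (A.card : ℝ) ^ (270 - δ) ≤ ((A + A).card : ℝ) ^ 123 * ((A * A).card : ℝ) ^ 79

/-- ZZ: the result for integers. -/
def S_ZZ : Prop := ∀ κ : ℝ, κ < 1 / 303 → ∃ c : ℝ, 0 < c ∧ ∀ A : Finset ℤ, A.Nonempty →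
  c * (A.card : ℝ) ^ (4 / 3 + κ) ≤ max ((A + A).card : ℝ) ((A * A).card : ℝ)

end Pool.Agent.W798.SP
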