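import Pool.Agent.W798.SP.Basic

/-!
# Sum-product over the reals with exponent 226/169: statements of the new parts
-/

set_option autoImplicit false
set_option linter.unusedSectionVars false

open Finset
open scoped Classical Pointwise

namespace Pool.Agent.W798.SP

open Pool.Agent.W904.AK

/-- The error term of the final row. -/
noncomputable def Er (P : ℕ) : ℝ :=
  4 * Real.log 2 + Cst (P ^ 2) + 6 * Real.log ((Nat.log 2 P : ℝ) + 1)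

/-- The extension by a random ratio `k` of elements of `A`, independent of the forms given the
slopes, such that `v i / (v 2 * k)` is on average a popular ratio of the product set. -/
def Ext2 {Ω₀ : Type} [Fintype Ω₀] (A : Finset ℝ) (p₀ : Ω₀ → ℝ) (l : Fin 4 → Ω₀ → ℝ)
    (u : Fin 3 → Ω₀ → ℝ) (i : Fin 3) (K D : ℝ) : Prop :=
  ∃ (Ω : Type) (_ : Fintype Ω) (p : Ω → ℝ) (L : Ω → Fin 4 → ℝ) (v : Fin 3 → Ω → ℝ)
    (k : Ω → ℝ), IsLaw p ∧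
    (∀ a, im p (fun ω => (L ω, zz v ω)) a = im p₀ (fun ω => (zz l ω, zz u ω)) a) ∧
    (∀ ω, p ω ≠ 0 → k ω ≠ 0 ∧ k ω ∈ A / A ∧ v i ω ≠ 0 ∧ v 2 ω ≠ 0 ∧
      1 ≤ (fib (A * A) (v i ω / (v 2 ω * k ω))).card) ∧
    CH p L (fun ω => (zz v ω, k ω)) = CH p L (zz v) + CH p L k ∧
    K ≤ CH p L k ∧
    D ≤ ∑ ω, p ω * Real.log ((fib (A * A) (v i ω / (v 2 ω * k ω))).card : ℝ)

/-- GC2: the conditional Gibbs inequality with a varying bound. -/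
def S_GC2 : Prop := ∀ {Ω γ α β : Type} [Fintype Ω] (p : Ω → ℝ) (Q : Ω → γ) (f : Ω → α) (g : Ω → β)
  (F : γ → Finset α) (G : γ → α → Finset β) (d : ℕ) (B : γ → ℝ), IsLaw p →
  (∀ ω, p ω ≠ 0 → f ω ∈ F (Q ω) ∧ g ω ∈ G (Q ω) (f ω)) →
  (∀ ω, p ω ≠ 0 → ∑ a ∈ F (Q ω), ((G (Q ω) a).card : ℝ) ^ d ≤ B (Q ω)) →
  d * CH p Q (fun ω => (f ω, g ω)) - (d - 1) * CH p Q f ≤ ∑ ω, p ω * Real.log (B (Q ω))

/-- STD: the conditional entropic Szemeredi-Trotter inequality with varying sizes. -/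
def S_STD : Prop := ∀ {Ω γ : Type} [Fintype Ω] (p : Ω → ℝ) (Q : Ω → γ) (x y a b : Ω → ℝ)
  (n m : γ → ℕ) (N : ℕ) (X Y : γ → Finset ℝ) (L : γ → Finset (ℝ × ℝ)), IsLaw p →
  (∀ q, (X q).card ≤ n q) → (∀ q, (Y q).card ≤ m q) → (∀ q, (L q).card ≤ (n q * m q) ^ 2) →
  (∀ q, n q ≤ N) →
  (∀ ω, p ω ≠ 0 → x ω ∈ X (Q ω) ∧ y ω ∈ Y (Q ω) ∧ a ω ≠ 0 ∧ y ω = a ω * x ω + b ω ∧
    (a ω, b ω) ∈ L (Q ω)) →
  3 * CH p Q (fun ω => ((a ω, b ω), (x ω, y ω))) ≤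
    2 * CH p Q (fun ω => (a ω, b ω)) +
      2 * ∑ ω, p ω * (Real.log (n (Q ω)) + Real.log (m (Q ω))) + Cst N

/-- KB: the entropy of a random ratio. -/
def S_KB : Prop := ∀ {Ω Γ : Type} [Fintype Ω] (A : Finset ℝ) (p : Ω → ℝ) (Lam : Ω → Γ)
  (u : Fin 3 → Ω → ℝ) (n : ℕ) (x y : Ω → ℝ) (i : Fin 3), (∀ a ∈ A, 0 < a) → Tri p Lam u n →
  (∀ ω, p ω ≠ 0 → x ω ∈ A ∧ y ω ≠ 0) →
  (∀ a, im p (fun ω => (Lam ω, y ω)) a = im p (fun ω => (Lam ω, u i ω)) a) →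
  CH p Lam (fun ω => (x ω, y ω)) = Real.log A.card + CH p Lam (u i) →
  2 * Real.log A.card + 2 * CH p Lam (zz u) - 3 * Real.log n - 1 / 2 * Real.log (en A) -
    1 / 2 * Cst n ≤ CH p Lam (fun ω => y ω / x ω)

/-- EX2: the extensions exist. -/
def S_EX2 : Prop := ∀ {Ω : Type} [Fintype Ω] (A : Finset ℝ) (p : Ω → ℝ) (l : Fin 4 → Ω → ℝ)
  (u : Fin 3 → Ω → ℝ) (n : ℕ) (i : Fin 3), A.Nonempty → (∀ a ∈ A, 0 < a) → Base A p l u n →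
  i ≠ 2 → Ext2 A p l u i
    (2 * Real.log A.card + 2 * CH p (zz l) (zz u) - 3 * Real.log n - 1 / 2 * Real.log (en A) -
      1 / 2 * Cst n)
    (H p (l i.castSucc) + (7 * CH p (zz l) (zz u) + 2 * Real.log A.card -
      11 * Real.log n - 1 / 2 * Real.log (en A) - 3 / 2 * Cst n) - 2 * Real.log (A * A).card)

/-- FI2: the final row. -/
def S_FI2 : Prop := ∀ {Ω : Type} [Fintype Ω] (A : Finset ℝ) (p : Ω → ℝ) (l : Fin 4 → Ω → ℝ)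
  (u : Fin 3 → Ω → ℝ) (n : ℕ) (K₀ D₀ K₁ D₁ : ℝ), (∀ a ∈ A, 0 < a) → Base A p l u n →
  Ext2 A p l u 0 K₀ D₀ → Ext2 A p l u 1 K₁ D₁ →
  3 * CH p (zz l) (fun ω => u 0 ω / u 2 ω) + K₀ + K₁ + 2 * (D₀ + D₁) ≤
    8 * Real.log (A * A).card + Er (A * A).card

/-- AS2: the inequality before optimisation. -/
def S_AS2 : Prop := ∀ (A S : Finset ℝ) (T M : ℕ), A.Nonempty → (∀ x ∈ A, 0 < x) → 1 ≤ T → 2 ≤ M →
  M ≤ S.card → (∀ l ∈ S, 0 < l ∧ T ≤ (fib A l).card ∧ (fib A l).card < 2 * T) →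
  16 * (A + A).card ^ 2 ≤ M * S.card * T ^ 2 →
  50 * Real.log ((T : ℝ) ^ 2 / (16 * (M : ℝ) ^ 2)) - 80 * Real.log ((2 * T : ℕ) : ℝ) +
    4 * Real.log (S.card / 64) + 12 * Real.log A.card - 3 * Real.log (en A) - 10 * Cst (2 * T) ≤
    16 * Real.log (A * A).card + Er (A * A).card

/-- PO2: the result for sets of positive reals. -/
def S_PO2 : Prop := ∀ δ : ℝ, 0 < δ → ∃ c : ℝ, 0 < c ∧ ∀ A : Finset ℝ, A.Nonempty →
  (∀ x ∈ A, 0 < x) → c * (A.card : ℝ) ^ (226 - δ) ≤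
    ((A + A).card : ℝ) ^ 103 * ((A * A).card : ℝ) ^ 66

/-- RE2: the result for finite sets of reals. -/
def S_RE2 : Prop := ∀ δ : ℝ, 0 < δ → ∃ c : ℝ, 0 < c ∧ ∀ A : Finset ℝ, A.Nonempty →
  c * (A.card : ℝ) ^ (226 - δ) ≤ ((A + A).card : ℝ) ^ 103 * ((A * A).card : ℝ) ^ 66

end Pool.Agent.W798.SP
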