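import Pool.Agent.W975.SP.ST1
import Pool.Agent.W108.SP.ST2
import Pool.Agent.W554.SP.GC
import Pool.Agent.W179.SP.STC
import Pool.Agent.W637.SP.EN
import Pool.Agent.W925.SP.SR
import Pool.Agent.W215.SP.CS
import Pool.Agent.W797.SP.DY
import Pool.Agent.W315.SP.CC
import Pool.Agent.W883.SP.C0
import Pool.Agent.W290.SPX.CL
import Pool.Agent.W405.SP.TR
import Pool.Agent.W414.SP.J0
import Pool.Agent.W496.SP.J
import Pool.Agent.W584.SPX.RB
import Pool.Agent.W135.SPX.EX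
import Pool.Agent.W338.SP.FI
import Pool.Agent.W308.SP.AS
import Pool.Agent.W919.SP.RE

/-!
# Sum-product: the chain of the parts
-/

set_option autoImplicit false

namespace Pool.Agent.W798.SP

theorem pST2 : S_ST2 := Pool.Agent.W108.SP.tST2 Pool.Agent.W975.SP.st1
theorem pGC : S_GC := Pool.Agent.W554.SPX.t_GC
theorem pSTC : S_STC := Pool.Agent.W179.SP.tSTC pST2 pGC
theorem pEN : S_EN := Pool.Agent.W637.SP.en_holds
theorem pSR : S_SR := Pool.Agent.W925.SP.tSR pGC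
theorem pCS : S_CS := Pool.Agent.W215.SP.main
theorem pDY : S_DY := Pool.Agent.W797.SP.tDY pCS
theorem pCL : S_CL := Pool.Agent.W290.SPX.tCL (Pool.Agent.W883.SP.tC0 Pool.Agent.W315.SP.t_CC)
theorem pTR : S_TR := Pool.Agent.W405.SP.TR.tr
theorem pHN : S_HN := Pool.Agent.W405.SP.TR.hn pGC
theorem pJ0 : S_J0 := Pool.Agent.W414.SP.tJ0 pSTC pGC
theorem pJ : S_J := Pool.Agent.W496.SP.J.tJ pJ0
theorem pRB : S_RB := Pool.Agent.W584.SPX.tRB pJ pSR pHN
theorem pEX : S_EX := Pool.Agent.W135.SPX.EX.tEX pRB pTR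
theorem pFI : S_FI := Pool.Agent.W338.SP.FI.tFI pSTC pGC
theorem pAS : S_AS := Pool.Agent.W308.SP.tAS pCL pTR pHN pJ pEX pFI

end Pool.Agent.W798.SP
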