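import Pool.Agent.W798.SP.Chain
import Pool.Agent.W798.SP.Stm2
import Pool.Agent.W756.SPY.GC2
import Pool.Agent.W99.SPY.Std
import Pool.Agent.W748.SPY.KB
import Pool.Agent.W342.SPY.EX2
import Pool.Agent.W612.SPY.FI2
import Pool.Agent.W940.SPY.AS2
import Pool.Agent.W32.SPY.PO2
import Pool.Agent.W333.SPY.RE2

/-!
# Sum-product: the chain of the parts, exponent 226/169
-/

set_option autoImplicit false

namespace Pool.Agent.W798.SP

theorem pGC2 : S_GC2 := Pool.Agent.W756.SPY.t_GC2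
theorem pSTD : S_STD := Pool.Agent.W99.SPY.tSTD pST2 pGC2
theorem pKB : S_KB := Pool.Agent.W748.SPY.tKB pJ pSR
theorem pEX2 : S_EX2 := Pool.Agent.W342.SPY.EX2.tEX2 pKB pRB pTR
theorem pFI2 : S_FI2 := Pool.Agent.W612.SPY.tFI2 pSTD
theorem pAS2 : S_AS2 := Pool.Agent.W940.SPY.tAS2 pCL pTR pHN pJ pEX2 pFI2
theorem pPO2 : S_PO2 := Pool.Agent.W32.SPY.tPO2 pAS2 pDY pEN pCS
theorem pRE2 : S_RE2 := Pool.Agent.W333.SPY.tRE2 pPO2

end Pool.Agent.W798.SP
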